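import Pool.Agent.H20.RCC.Stmts

/-!
Board rcc (MP_a315fd_nt), row SAD, helper46: saturated addition of one digit.
-/

set_option autoImplicit false

namespace Pool.RCC

namespace SADAux

/-- place of one digit -/
lemma pl (L b R p : ℕ) (hp : 0 < p) (hb : b < 4) (hL : L < p) :
    (L + p * (b + 4 * R)) / p % 4 = b := by
  rw [Nat.add_mul_div_left _ _ hp, Nat.div_eq_of_lt hL]
  omega

/-- addition at one place -/
lemma one (L R p x : ℕ) (hp : 0 < p) (hL : L < p) :
    (if (L + p * (min x 2 + 4 * R)) / p % 4 < 2 then L + p * (min x 2 + 4 * R) + p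
      else L + p * (min x 2 + 4 * R)) = L + p * (min (x + 1) 2 + 4 * R) := by
  rw [pl L (min x 2) R p hp (by omega) hL]
  split_ifs with h
  · have h1 : min (x + 1) 2 = min x 2 + 1 := by omega
    rw [h1]; ring
  · have h1 : min (x + 1) 2 = min x 2 := by omega
    rw [h1]

end SADAux

open SADAux

theorem sad_thm : SADStmt := by
  intro d f hd
  have m1 : min (f 1) 2 ≤ 2 := min_le_right _ _
  have m2 : min (f 2) 2 ≤ 2 := min_le_right _ _
  have m3 : min (f 3) 2 ≤ 2 := min_le_right _ _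
  have m4 : min (f 4) 2 ≤ 2 := min_le_right _ _
  have m5 : min (f 5) 2 ≤ 2 := min_le_right _ _
  have m6 : min (f 6) 2 ≤ 2 := min_le_right _ _
  have m7 : min (f 7) 2 ≤ 2 := min_le_right _ _
  have m8 : min (f 8) 2 ≤ 2 := min_le_right _ _
  have m9 : min (f 9) 2 ≤ 2 := min_le_right _ _
  interval_cases d
  · simp [sadd, enc]
  · have h := one (0) (min (f 2) 2 + 4 * min (f 3) 2 + 16 * min (f 4) 2 + 64 * min (f 5) 2 +
      256 * min (f 6) 2 + 1024 * min (f 7) 2 + 4096 * min (f 8) 2 + 16384 * min (f 9) 2) 1 (f 1)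
      (by norm_num) (by omega)
    have e : enc f = (0) + 1 * (min (f 1) 2 + 4 * (min (f 2) 2 + 4 * min (f 3) 2 +
      16 * min (f 4) 2 + 64 * min (f 5) 2 + 256 * min (f 6) 2 + 1024 * min (f 7) 2 +
      4096 * min (f 8) 2 + 16384 * min (f 9) 2)) := by
      unfold enc; ring
    rw [sadd, if_neg (by norm_num), e]
    norm_num only at h ⊢
    rw [h]
    simp only [enc]
    norm_num
    ring
  · have h := one (min (f 1) 2) (min (f 3) 2 + 4 * min (f 4) 2 + 16 * min (f 5) 2 +
      64 * min (f 6) 2 + 256 * min (f 7) 2 + 1024 * min (f 8) 2 + 4096 * min (f 9) 2) 4 (f 2)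
      (by norm_num) (by omega)
    have e : enc f = (min (f 1) 2) + 4 * (min (f 2) 2 + 4 * (min (f 3) 2 + 4 * min (f 4) 2 +
      16 * min (f 5) 2 + 64 * min (f 6) 2 + 256 * min (f 7) 2 + 1024 * min (f 8) 2 +
      4096 * min (f 9) 2)) := by
      unfold enc; ring
    rw [sadd, if_neg (by norm_num), e]
    norm_num only at h ⊢
    rw [h]
    simp only [enc]
    norm_num
    ring
  · have h := one (min (f 1) 2 + 4 * min (f 2) 2) (min (f 4) 2 + 4 * min (f 5) 2 +
      16 * min (f 6) 2 + 64 * min (f 7) 2 + 256 * min (f 8) 2 + 1024 * min (f 9) 2) 16 (f 3)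
      (by norm_num) (by omega)
    have e : enc f = (min (f 1) 2 + 4 * min (f 2) 2) + 16 * (min (f 3) 2 + 4 * (min (f 4) 2 +
      4 * min (f 5) 2 + 16 * min (f 6) 2 + 64 * min (f 7) 2 + 256 * min (f 8) 2 +
      1024 * min (f 9) 2)) := by
      unfold enc; ring
    rw [sadd, if_neg (by norm_num), e]
    norm_num only at h ⊢
    rw [h]
    simp only [enc]
    norm_num
    ring
  · have h := one (min (f 1) 2 + 4 * min (f 2) 2 + 16 * min (f 3) 2) (min (f 5) 2 +
      4 * min (f 6) 2 + 16 * min (f 7) 2 + 64 * min (f 8) 2 + 256 * min (f 9) 2) 64 (f 4)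
      (by norm_num) (by omega)
    have e : enc f = (min (f 1) 2 + 4 * min (f 2) 2 + 16 * min (f 3) 2) + 64 * (min (f 4) 2 +
      4 * (min (f 5) 2 + 4 * min (f 6) 2 + 16 * min (f 7) 2 + 64 * min (f 8) 2 +
      256 * min (f 9) 2)) := by
      unfold enc; ring
    rw [sadd, if_neg (by norm_num), e]
    norm_num only at h ⊢
    rw [h]
    simp only [enc]
    norm_num
    ring
  · have h := one (min (f 1) 2 + 4 * min (f 2) 2 + 16 * min (f 3) 2 +
      64 * min (f 4) 2) (min (f 6) 2 + 4 * min (f 7) 2 + 16 * min (f 8) 2 +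
      64 * min (f 9) 2) 256 (f 5)
      (by norm_num) (by omega)
    have e : enc f = (min (f 1) 2 + 4 * min (f 2) 2 + 16 * min (f 3) 2 + 64 * min (f 4) 2) +
      256 * (min (f 5) 2 + 4 * (min (f 6) 2 + 4 * min (f 7) 2 + 16 * min (f 8) 2 +
      64 * min (f 9) 2)) := by
      unfold enc; ring
    rw [sadd, if_neg (by norm_num), e]
    norm_num only at h ⊢
    rw [h]
    simp only [enc]
    norm_num
    ring
  · have h := one (min (f 1) 2 + 4 * min (f 2) 2 + 16 * min (f 3) 2 + 64 * min (f 4) 2 +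
      256 * min (f 5) 2) (min (f 7) 2 + 4 * min (f 8) 2 + 16 * min (f 9) 2) 1024 (f 6)
      (by norm_num) (by omega)
    have e : enc f = (min (f 1) 2 + 4 * min (f 2) 2 + 16 * min (f 3) 2 + 64 * min (f 4) 2 +
      256 * min (f 5) 2) + 1024 * (min (f 6) 2 + 4 * (min (f 7) 2 + 4 * min (f 8) 2 +
      16 * min (f 9) 2)) := by
      unfold enc; ring
    rw [sadd, if_neg (by norm_num), e]
    norm_num only at h ⊢
    rw [h]
    simp only [enc]
    norm_num
    ring
  · have h := one (min (f 1) 2 + 4 * min (f 2) 2 + 16 * min (f 3) 2 + 64 * min (f 4) 2 +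
      256 * min (f 5) 2 + 1024 * min (f 6) 2) (min (f 8) 2 + 4 * min (f 9) 2) 4096 (f 7)
      (by norm_num) (by omega)
    have e : enc f = (min (f 1) 2 + 4 * min (f 2) 2 + 16 * min (f 3) 2 + 64 * min (f 4) 2 +
      256 * min (f 5) 2 + 1024 * min (f 6) 2) + 4096 * (min (f 7) 2 + 4 * (min (f 8) 2 +
      4 * min (f 9) 2)) := by
      unfold enc; ring
    rw [sadd, if_neg (by norm_num), e]
    norm_num only at h ⊢
    rw [h]
    simp only [enc]
    norm_num
    ring
  · have h := one (min (f 1) 2 + 4 * min (f 2) 2 + 16 * min (f 3) 2 + 64 * min (f 4) 2 +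
      256 * min (f 5) 2 + 1024 * min (f 6) 2 + 4096 * min (f 7) 2) (min (f 9) 2) 16384 (f 8)
      (by norm_num) (by omega)
    have e : enc f = (min (f 1) 2 + 4 * min (f 2) 2 + 16 * min (f 3) 2 + 64 * min (f 4) 2 +
      256 * min (f 5) 2 + 1024 * min (f 6) 2 + 4096 * min (f 7) 2) + 16384 * (min (f 8) 2 +
      4 * (min (f 9) 2)) := by
      unfold enc; ring
    rw [sadd, if_neg (by norm_num), e]
    norm_num only at h ⊢
    rw [h]
    simp only [enc]
    norm_num
    ring
  · have h := one (min (f 1) 2 + 4 * min (f 2) 2 + 16 * min (f 3) 2 + 64 * min (f 4) 2 +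
      256 * min (f 5) 2 + 1024 * min (f 6) 2 + 4096 * min (f 7) 2 +
      16384 * min (f 8) 2) (0) 65536 (f 9)
      (by norm_num) (by omega)
    have e : enc f = (min (f 1) 2 + 4 * min (f 2) 2 + 16 * min (f 3) 2 + 64 * min (f 4) 2 +
      256 * min (f 5) 2 + 1024 * min (f 6) 2 + 4096 * min (f 7) 2 + 16384 * min (f 8) 2) +
      65536 * (min (f 9) 2 + 4 * (0)) := by
      unfold enc; ring
    rw [sadd, if_neg (by norm_num), e]
    norm_num only at h ⊢
    rw [h]
    simp only [enc]
    norm_num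

end Pool.RCC
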